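import Mathlib
import Pool.Agent.Lib.MP_0b3b8e_pr.Chain
import Pool.Agent.Lib.MP_0b3b8e_pr.Potential

open MeasureTheory ProbabilityTheory Finset
open scoped ENNReal NNReal
open Pool.Agent.Lib.MP_0b3b8e_pr

namespace Pool.Agent.Results.MP_0b3b8e_pr.MonopolyFails

/-- A composition of `d` urns: the numbers of black balls and the numbers of red balls. -/
abbrev State (d : ℕ) := (Fin d → ℕ) × (Fin d → ℕ)

/-- `B^*`, the total number of black balls. -/
def blackTotal {d : ℕ} (s : State d) : ℕ := ∑ i, s.1 i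

/-- `R^*`, the total number of red balls. -/
def redTotal {d : ℕ} (s : State d) : ℕ := ∑ i, s.2 i

/-- The probability `W(B^*) / (W(B^*) + W(R^*))` that an urn receives a black ball. -/
noncomputable def pBlack {d : ℕ} (W : ℕ → ℝ≥0) (s : State d) : ℝ≥0 :=
  W (blackTotal s) / (W (blackTotal s) + W (redTotal s))

lemma pBlack_le_one {d : ℕ} (W : ℕ → ℝ≥0) (s : State d) : pBlack W s ≤ 1 := by
  unfold pBlack
  exact div_le_one_of_le₀ le_self_add (by positivity)

/-- The law of one coin: `true` (black) with probability `p`, otherwise `false` (red). -/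
noncomputable def coin (p : ℝ≥0) : Measure Bool :=
  (p : ℝ≥0∞) • Measure.dirac true + ((1 - p : ℝ≥0) : ℝ≥0∞) • Measure.dirac false

lemma coin_prob {p : ℝ≥0} (hp : p ≤ 1) : IsProbabilityMeasure (coin p) := by
  constructor
  unfold coin
  simp only [Measure.add_apply, Measure.smul_apply, measure_univ, smul_eq_mul, mul_one]
  rw [← ENNReal.coe_add, add_tsub_cancel_of_le hp, ENNReal.coe_one]

/-- Urn `i` receives a black ball if `c i = true`, and a red ball otherwise. -/
def addBalls {d : ℕ} (s : State d) (c : Fin d → Bool) : State d :=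
  (fun i => s.1 i + if c i then 1 else 0, fun i => s.2 i + if c i then 0 else 1)

/-- The law of the next composition given the present one: independently for each urn, one ball
is added, black with probability `pBlack W s`. -/
noncomputable def stepLaw {d : ℕ} (W : ℕ → ℝ≥0) (s : State d) : Measure (State d) :=
  (Measure.pi fun _ : Fin d => coin (pBlack W s)).map (addBalls s)

instance {d : ℕ} (W : ℕ → ℝ≥0) (s : State d) : IsProbabilityMeasure (stepLaw W s) := by
  unfold stepLaw
  have := coin_prob (pBlack_le_one W s)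
  exact Measure.isProbabilityMeasure_map (measurable_of_countable _).aemeasurable

/-- The transition kernel of the interacting urn mechanism with `p = 1`. -/
noncomputable def urnKernel {d : ℕ} (W : ℕ → ℝ≥0) : Kernel (State d) (State d) :=
  Kernel.ofFunOfCountable (stepLaw W)

instance {d : ℕ} (W : ℕ → ℝ≥0) : IsMarkovKernel (urnKernel (d := d) W) :=
  ⟨fun s => (inferInstance : IsProbabilityMeasure (stepLaw W s))⟩

/-- `ℙ_1^W`: the law of the process started from the composition `s₀`. -/
noncomputable def urnLaw {d : ℕ} (W : ℕ → ℝ≥0) (s₀ : State d) : Measure (ℕ → State d) :=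
  chain (urnKernel W) s₀

/-- `W` is strong: `∑_{n ≥ 1} 1 / W(n) < ∞`. -/
def Strong (W : ℕ → ℝ≥0) : Prop := Summable (fun n : ℕ => (W (n + 1))⁻¹)

/-- Monopoly: from some time on only balls of one colour are added. -/
def Monopoly (d : ℕ) : Set (ℕ → State d) :=
  {x | ∃ N, ∀ n, N ≤ n → redTotal (x (n + 1)) = redTotal (x n)} ∪
    {x | ∃ N, ∀ n, N ≤ n → blackTotal (x (n + 1)) = blackTotal (x n)}

lemma coin_singleton (p : ℝ≥0) (c : Bool) : coin p {c} = if c then (p : ℝ≥0∞) else ((1 - p : ℝ≥0) : ℝ≥0∞) := by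
  unfold coin
  cases c <;> simp

lemma lintegral_step (W : ℕ → ℝ≥0) (s : State 2) (f : State 2 → ℝ≥0∞) :
    ∫⁻ y, f y ∂(stepLaw W s) =
      ∑ c : Fin 2 → Bool, f (addBalls s c) * ∏ i, (if c i then (pBlack W s : ℝ≥0∞) else
        ((1 - pBlack W s : ℝ≥0) : ℝ≥0∞)) := by
  have := coin_prob (pBlack_le_one W s)
  unfold stepLaw
  rw [lintegral_map (measurable_of_countable _) (measurable_of_countable _), lintegral_fintype]
  refine Finset.sum_congr rfl (fun c _ => ?_)
  rw [Measure.pi_singleton]
  congr 1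
  exact Finset.prod_congr rfl (fun i _ => coin_singleton _ _)

lemma blackTotal_add (s : State 2) (c : Fin 2 → Bool) :
    blackTotal (addBalls s c) = blackTotal s + ((if c 0 then 1 else 0) + (if c 1 then 1 else 0)) := by
  simp only [blackTotal, addBalls, Fin.sum_univ_two]
  ring

lemma redTotal_add (s : State 2) (c : Fin 2 → Bool) :
    redTotal (addBalls s c) = redTotal s + ((if c 0 then 0 else 1) + (if c 1 then 0 else 1)) := by
  simp only [redTotal, addBalls, Fin.sum_univ_two]
  ring

lemma lintegral_step_totals (W : ℕ → ℝ≥0) (s : State 2) (F : ℕ → ℕ → ℝ≥0∞) :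
    ∫⁻ y, F (blackTotal y) (redTotal y) ∂(stepLaw W s) =
      (pBlack W s : ℝ≥0∞) ^ 2 * F (blackTotal s + 2) (redTotal s) +
      2 * ((pBlack W s : ℝ≥0∞) * ((1 - pBlack W s : ℝ≥0) : ℝ≥0∞)) *
        F (blackTotal s + 1) (redTotal s + 1) +
      (((1 - pBlack W s : ℝ≥0) : ℝ≥0∞)) ^ 2 * F (blackTotal s) (redTotal s + 2) := by
  rw [lintegral_step]
  rw [← (finTwoArrowEquiv Bool).symm.sum_comp, Fintype.sum_prod_type]
  simp only [Fintype.sum_bool, Fin.prod_univ_two, blackTotal_add, redTotal_add,
    finTwoArrowEquiv_symm_apply, Matrix.cons_val_zero, Matrix.cons_val_one, Matrix.cons_val_fin_one,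
    if_true, Bool.false_eq_true, if_false, add_zero, zero_add]
  norm_num
  ring

/-- The weights. -/
noncomputable def Wc (n : ℕ) : ℝ≥0 := 2 ^ ex n

lemma coe_Wc (n : ℕ) : ((Wc n : ℝ≥0) : ℝ) = wt n := by
  unfold Wc wt
  push_cast
  rfl

lemma Wc_pos (n : ℕ) : 0 < Wc n := by
  unfold Wc
  positivity

lemma Wc_strong : Strong Wc := by
  unfold Strong
  have h : ∀ n : ℕ, (Wc (n + 1))⁻¹ ≤ (1 / 2 : ℝ≥0) ^ n := by
    intro n
    have h1 : n ≤ ex (n + 1) := by
      have := ex_ge (n + 1)
      omega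
    unfold Wc
    rw [one_div, inv_pow]
    have h2 : (2 : ℝ≥0) ^ n ≤ 2 ^ ex (n + 1) := pow_le_pow_right₀ (by norm_num) h1
    exact inv_anti₀ (by positivity) h2
  refine NNReal.summable_of_le h ?_
  rw [← NNReal.summable_coe]
  push_cast
  exact summable_geometric_of_lt_one (by norm_num) (by norm_num)

lemma coe_pBlack (s : State 2) :
    ((pBlack Wc s : ℝ≥0) : ℝ) = pb (blackTotal s) (redTotal s) := by
  unfold pBlack pb
  push_cast
  rw [coe_Wc, coe_Wc]

lemma step_ofReal (s : State 2) (T₀ n : ℕ) (hs : blackTotal s + redTotal s = T₀ + 2 * n) :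
    ∫⁻ y, (if blackTotal y + redTotal y = T₀ + 2 * (n + 1) then
        ENNReal.ofReal (v (blackTotal y) (redTotal y)) else 1) ∂(stepLaw Wc s) =
      ENNReal.ofReal (stepR v (blackTotal s) (redTotal s)) := by
  have h := lintegral_step_totals Wc s
    (fun b r => if b + r = T₀ + 2 * (n + 1) then ENNReal.ofReal (v b r) else 1)
  rw [h]
  have e1 : blackTotal s + 2 + redTotal s = T₀ + 2 * (n + 1) := by omega
  have e2 : blackTotal s + 1 + (redTotal s + 1) = T₀ + 2 * (n + 1) := by omega
  have e3 : blackTotal s + (redTotal s + 2) = T₀ + 2 * (n + 1) := by omega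
  simp only [e1, e2, e3, if_true]
  have hp : ((pBlack Wc s : ℝ≥0) : ℝ≥0∞) = ENNReal.ofReal (pb (blackTotal s) (redTotal s)) := by
    rw [← coe_pBlack, ENNReal.ofReal_coe_nnreal]
  have hq : ((1 - pBlack Wc s : ℝ≥0) : ℝ≥0∞) =
      ENNReal.ofReal (1 - pb (blackTotal s) (redTotal s)) := by
    rw [← coe_pBlack, ← ENNReal.ofReal_coe_nnreal, NNReal.coe_sub (pBlack_le_one Wc s),
      NNReal.coe_one]
  rw [hp, hq]
  have h0 := pb_nonneg (blackTotal s) (redTotal s)
  have h1 : 0 ≤ 1 - pb (blackTotal s) (redTotal s) :=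
    sub_nonneg.2 (pb_le_one (blackTotal s) (redTotal s))
  have n1 := v_nonneg (blackTotal s + 2) (redTotal s)
  have n2 := v_nonneg (blackTotal s + 1) (redTotal s + 1)
  have n3 := v_nonneg (blackTotal s) (redTotal s + 2)
  unfold stepR
  have h2 : (2 : ℝ≥0∞) = ENNReal.ofReal 2 := by simp
  rw [ENNReal.ofReal_add (by positivity) (by positivity),
    ENNReal.ofReal_add (by positivity) (by positivity),
    ENNReal.ofReal_mul (by positivity), ENNReal.ofReal_mul (by positivity),
    ENNReal.ofReal_mul (by positivity), ENNReal.ofReal_mul (by positivity),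
    ENNReal.ofReal_mul (by positivity), ENNReal.ofReal_pow h0, ENNReal.ofReal_pow h1, ← h2]

/-- The bad configurations at time `n`. -/
def Bad (T₀ n : ℕ) : Set (State 2) :=
  {s | ¬ (blackTotal s + redTotal s = T₀ + 2 * n ∧ v (blackTotal s) (redTotal s) < 1)}

lemma bad_le (s₀ : State 2) :
    urnLaw Wc s₀ {x | ∃ n, x n ∈ Bad (blackTotal s₀ + redTotal s₀) n} ≤
      ENNReal.ofReal (v (blackTotal s₀) (redTotal s₀)) := by
  set T₀ := blackTotal s₀ + redTotal s₀ with hT
  have h := chain_bad_le (urnKernel Wc) s₀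
    (fun n s => if blackTotal s + redTotal s = T₀ + 2 * n then
        ENNReal.ofReal (v (blackTotal s) (redTotal s)) else 1)
    (fun n => measurable_of_countable _) (Bad T₀) (fun n => (Set.to_countable _).measurableSet)
    ?_ ?_
  · unfold urnLaw
    simpa [hT] using h
  · intro n s hs
    by_cases h1 : blackTotal s + redTotal s = T₀ + 2 * n
    · simp only [h1, if_true]
      have h2 : 1 ≤ v (blackTotal s) (redTotal s) := by
        by_contra h3
        exact hs ⟨h1, not_le.1 h3⟩
      rw [← ENNReal.ofReal_one]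
      exact ENNReal.ofReal_le_ofReal h2
    · simp only [h1, if_false, le_refl]
  · intro n s hs
    have hs' : blackTotal s + redTotal s = T₀ + 2 * n ∧ v (blackTotal s) (redTotal s) < 1 := by
      by_contra h3
      exact hs h3
    simp only [hs'.1, if_true]
    have h4 := step_ofReal s T₀ n hs'.1
    change ∫⁻ y, _ ∂(stepLaw Wc s) ≤ _
    rw [h4]
    exact ENNReal.ofReal_le_ofReal (stepR_le _ _)

lemma monopoly_subset (T₀ : ℕ) : Monopoly 2 ⊆ {x | ∃ n, x n ∈ Bad T₀ n} := by
  intro x hx
  by_contra hb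
  have hgood : ∀ n, blackTotal (x n) + redTotal (x n) = T₀ + 2 * n ∧
      v (blackTotal (x n)) (redTotal (x n)) < 1 := by
    intro n
    by_contra h
    exact hb ⟨n, h⟩
  rcases hx with ⟨N, hN⟩ | ⟨N, hN⟩
  · have hc : ∀ n, N ≤ n → redTotal (x n) = redTotal (x N) := by
      intro n hn
      induction n, hn using Nat.le_induction with
      | base => rfl
      | succ n hn ih => rw [hN n hn, ih]
    set R := redTotal (x N) with hR
    have h1 := hgood (N + 2 * R + 2 + 1)
    obtain ⟨y, hy⟩ := good_of_v_lt h1.2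
    have h2 := good_close hy.symm
    have h3 := hc (N + 2 * R + 2 + 1) (by omega)
    have h4 := h1.1
    rw [h3] at h2 h4
    omega
  · have hc : ∀ n, N ≤ n → blackTotal (x n) = blackTotal (x N) := by
      intro n hn
      induction n, hn using Nat.le_induction with
      | base => rfl
      | succ n hn ih => rw [hN n hn, ih]
    set R := blackTotal (x N) with hR
    have h1 := hgood (N + 2 * R + 2 + 1)
    obtain ⟨y, hy⟩ := good_of_v_lt h1.2
    have h2 := good_close hy
    have h3 := hc (N + 2 * R + 2 + 1) (by omega)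
    have h4 := h1.1
    rw [h3] at h2 h4
    omega

lemma VL_tendsto : Filter.Tendsto (fun j : ℕ => VL j 0) Filter.atTop (nhds 0) := by
  have h1 : Filter.Tendsto (fun j : ℕ => (j : ℝ) * (1 / 2) ^ j) Filter.atTop (nhds 0) :=
    tendsto_self_mul_const_pow_of_lt_one (by norm_num) (by norm_num)
  have h2 : Filter.Tendsto (fun j : ℕ => (1 / 2 : ℝ) ^ j) Filter.atTop (nhds 0) :=
    tendsto_pow_atTop_nhds_zero_of_lt_one (by norm_num) (by norm_num)
  have h3 : Filter.Tendsto (fun j : ℕ => (3 / 4 : ℝ) ^ j) Filter.atTop (nhds 0) :=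
    tendsto_pow_atTop_nhds_zero_of_lt_one (by norm_num) (by norm_num)
  have h4 := ((h1.const_mul 8).add (h2.const_mul 16)).add (h3.const_mul 4)
  simp only [mul_zero, add_zero] at h4
  refine h4.congr (fun j => ?_)
  unfold VL T
  simp only [Nat.sub_zero]
  ring

/-- **Q1 is false.**  For two urns there is a strong reinforcement sequence `W` (with `W > 0`)
such that for every `ε > 0` some initial composition makes monopoly have probability at most `ε`:
with probability at least `1 - ε` balls of both colours are added infinitely often. -/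
theorem result :
    ∃ W : ℕ → ℝ≥0, (∀ n, 0 < W n) ∧ Strong W ∧
      ∀ ε : ℝ, 0 < ε → ∃ s₀ : State 2, 1 ≤ blackTotal s₀ + redTotal s₀ ∧
        urnLaw W s₀ (Monopoly 2) ≤ ENNReal.ofReal ε ∧
        1 - ENNReal.ofReal ε ≤ urnLaw W s₀ (Monopoly 2)ᶜ := by
  refine ⟨Wc, Wc_pos, Wc_strong, ?_⟩
  intro ε hε
  obtain ⟨j, hj1, hj2⟩ : ∃ j : ℕ, 1 ≤ j ∧ VL j 0 < ε := by
    have h := (VL_tendsto.eventually (gt_mem_nhds hε)).and (Filter.eventually_ge_atTop 1)
    obtain ⟨j, h1, h2⟩ := h.exists
    exact ⟨j, h2, h1⟩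
  refine ⟨(![j * j, 0], ![j * j, 0]), ?_, ?_⟩
  · simp only [blackTotal, redTotal, Fin.sum_univ_two, Matrix.cons_val_zero, Matrix.cons_val_one,
      Matrix.cons_val_fin_one]
    nlinarith
  have hb : blackTotal ((![j * j, 0], ![j * j, 0]) : State 2) = j * j := by
    simp [blackTotal, Fin.sum_univ_two]
  have hr : redTotal ((![j * j, 0], ![j * j, 0]) : State 2) = j * j := by
    simp [redTotal, Fin.sum_univ_two]
  have h1 := bad_le (![j * j, 0], ![j * j, 0])
  rw [hb, hr] at h1
  have h2 : v (j * j) (j * j) ≤ VL j 0 := by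
    have := v_le (Good.lane j 0 (by omega))
    simpa using this
  have h3 : urnLaw Wc ((![j * j, 0], ![j * j, 0]) : State 2) (Monopoly 2) ≤ ENNReal.ofReal ε :=
    calc urnLaw Wc ((![j * j, 0], ![j * j, 0]) : State 2) (Monopoly 2)
        ≤ _ := measure_mono (monopoly_subset (j * j + j * j))
      _ ≤ ENNReal.ofReal (v (j * j) (j * j)) := h1
      _ ≤ ENNReal.ofReal ε := ENNReal.ofReal_le_ofReal (h2.trans hj2.le)
  refine ⟨h3, ?_⟩
  have h4 : (1 : ℝ≥0∞) ≤ urnLaw Wc ((![j * j, 0], ![j * j, 0]) : State 2) (Monopoly 2) +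
      urnLaw Wc ((![j * j, 0], ![j * j, 0]) : State 2) (Monopoly 2)ᶜ := by
    have : IsProbabilityMeasure (urnLaw Wc ((![j * j, 0], ![j * j, 0]) : State 2)) := by
      unfold urnLaw
      infer_instance
    calc (1 : ℝ≥0∞) = urnLaw Wc ((![j * j, 0], ![j * j, 0]) : State 2) Set.univ :=
          measure_univ.symm
      _ = urnLaw Wc ((![j * j, 0], ![j * j, 0]) : State 2) (Monopoly 2 ∪ (Monopoly 2)ᶜ) := by
          rw [Set.union_compl_self]
      _ ≤ _ := measure_union_le _ _
  rw [tsub_le_iff_left]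
  exact h4.trans (add_le_add_left h3 _)

end Pool.Agent.Results.MP_0b3b8e_pr.MonopolyFails
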